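import Pool.Agent.H33R3.Bom.Stmts3
set_option autoImplicit false

/-!
The special sequences of the lower bound: task R of the project H33-BOM.
-/

namespace Pool.Agent.H299R5.Bom3

open Complex Metric Set Filter Topology Pool.Agent.H33R3.Bom

/-- first root -/
noncomputable def aa (γ : ℝ) : ℂ := exp (I * γ)

/-- second root -/
noncomputable def bb (γ : ℝ) : ℂ := -exp (-(I * γ))

lemma aabb (γ : ℝ) : aa γ * bb γ = -1 := by
  unfold aa bb
  rw [mul_neg, ← Complex.exp_add]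
  simp

lemma norm_aa (γ : ℝ) : ‖aa γ‖ = 1 := by
  unfold aa
  rw [mul_comm]
  exact Complex.norm_exp_ofReal_mul_I γ

lemma norm_bb (γ : ℝ) : ‖bb γ‖ = 1 := by
  unfold bb
  rw [norm_neg]
  have : -(I * (γ : ℂ)) = ((-γ : ℝ) : ℂ) * I := by push_cast; ring
  rw [this]
  exact Complex.norm_exp_ofReal_mul_I _

lemma sq_add (γ : ℝ) : aa γ ^ 2 + bb γ ^ 2 = ((2 * Real.cos (2 * γ) : ℝ) : ℂ) := by
  unfold aa bb
  push_cast
  rw [neg_pow, ← Complex.exp_nat_mul, ← Complex.exp_nat_mul, Complex.cos]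
  have e1 : ((2 : ℕ) : ℂ) * (I * γ) = 2 * γ * I := by push_cast; ring
  have e2 : ((2 : ℕ) : ℂ) * (-(I * γ)) = -(2 * γ) * I := by push_cast; ring
  rw [e1, e2]
  ring

/-- complex form of `Dk` -/
noncomputable def SS (j : ℕ) (γ : ℝ) : ℂ :=
  ∑ i ∈ Finset.range (2 * j + 1), aa γ ^ i * bb γ ^ (2 * j - i)

lemma Dk_eq (j : ℕ) (γ : ℝ) : Dk j γ = (SS j γ).re := rfl

lemma SS_zero (γ : ℝ) : SS 0 γ = 1 := by simp [SS]

lemma SS_succ (j : ℕ) (γ : ℝ) :
    SS (j + 1) γ = aa γ ^ (2 * j + 2) - aa γ ^ (2 * j) + bb γ ^ 2 * SS j γ := by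
  unfold SS
  have h : 2 * (j + 1) + 1 = 2 * j + 1 + 1 + 1 := by ring
  rw [h, Finset.sum_range_succ, Finset.sum_range_succ, Finset.mul_sum]
  have e1 : ∑ i ∈ Finset.range (2 * j + 1), aa γ ^ i * bb γ ^ (2 * (j + 1) - i) =
      ∑ i ∈ Finset.range (2 * j + 1), bb γ ^ 2 * (aa γ ^ i * bb γ ^ (2 * j - i)) := by
    refine Finset.sum_congr rfl fun i hi => ?_
    have hi' := Finset.mem_range.1 hi
    have : 2 * (j + 1) - i = 2 + (2 * j - i) := by omega
    rw [this, pow_add]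
    ring
  have e2 : 2 * (j + 1) - (2 * j + 1) = 1 := by omega
  have e3 : 2 * (j + 1) - (2 * j + 1 + 1) = 0 := by omega
  rw [e1, e2, e3]
  have := aabb γ
  linear_combination (aa γ ^ (2 * j)) * this

lemma SS_rec (j : ℕ) (γ : ℝ) :
    SS (j + 2) γ = ((2 * Real.cos (2 * γ) : ℝ) : ℂ) * SS (j + 1) γ - SS j γ := by
  rw [← sq_add]
  have h1 := SS_succ j γ
  have h2 := SS_succ (j + 1) γ
  have h3 := aabb γ
  have h4 : aa γ ^ 2 * bb γ ^ 2 = 1 := by
    rw [← mul_pow, h3]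
    norm_num
  rw [show j + 2 = j + 1 + 1 by ring, h2]
  linear_combination (-aa γ ^ 2) * h1 + (- SS j γ) * h4

lemma D_zero (γ : ℝ) : Dk 0 γ = 1 := by rw [Dk_eq, SS_zero]; simp

lemma D_one (γ : ℝ) : Dk 1 γ = 2 * Real.cos (2 * γ) - 1 := by
  have h := SS_succ 0 γ
  rw [SS_zero] at h
  have h2 := sq_add γ
  have h3 : SS 1 γ = ((2 * Real.cos (2 * γ) - 1 : ℝ) : ℂ) := by
    push_cast at h2 ⊢
    simp only [zero_add, mul_zero, pow_zero, mul_one] at h
    linear_combination h + h2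
  rw [Dk_eq, h3, Complex.ofReal_re]

lemma D_rec (j : ℕ) (γ : ℝ) : Dk (j + 2) γ = 2 * Real.cos (2 * γ) * Dk (j + 1) γ - Dk j γ := by
  rw [Dk_eq, SS_rec, Complex.sub_re, Complex.re_ofReal_mul, ← Dk_eq, ← Dk_eq]

lemma D_abs (j : ℕ) (γ : ℝ) : |Dk j γ| ≤ 2 * (j : ℝ) + 1 := by
  rw [Dk_eq]
  refine (Complex.abs_re_le_norm _).trans ?_
  unfold SS
  refine (norm_sum_le _ _).trans ?_
  refine (Finset.sum_le_sum (g := fun _ => (1 : ℝ)) fun i _ => ?_).trans (by simp)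
  rw [norm_mul, norm_pow, norm_pow, norm_aa, norm_bb]
  simp

lemma summ_geo (t : ℝ) (ht : |t| < 1) : Summable (fun j : ℕ => |t| ^ j * (2 * (j : ℝ) + 1)) := by
  have h0 : ‖|t|‖ < 1 := by rwa [Real.norm_eq_abs, abs_abs]
  have h1 := summable_pow_mul_geometric_of_norm_lt_one 1 h0
  have h2 := summable_geometric_of_norm_lt_one h0
  refine ((h1.mul_left 2).add h2).congr fun j => ?_
  simp only [pow_one]
  ring

lemma summ_D (γ t : ℝ) (ht : |t| < 1) : Summable (fun j : ℕ => t ^ j * Dk j γ) := by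
  refine Summable.of_norm_bounded (summ_geo t ht) fun j => ?_
  rw [Real.norm_eq_abs, abs_mul, abs_pow]
  exact mul_le_mul_of_nonneg_left (D_abs j γ) (by positivity)

lemma gen_aux (D : ℕ → ℝ) (c t : ℝ) (h0 : D 0 = 1) (h1 : D 1 = c - 1)
    (hrec : ∀ j, D (j + 2) = c * D (j + 1) - D j) (hs : Summable fun j : ℕ => t ^ j * D j) :
    (∑' j : ℕ, t ^ j * D j) * (1 - c * t + t ^ 2) = 1 - t := by
  have hs1 : Summable (fun j : ℕ => t ^ (j + 1) * D (j + 1)) := (summable_nat_add_iff 1).2 hs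
  have e0 := hs.tsum_eq_zero_add
  have e1 := hs1.tsum_eq_zero_add
  have e2 : ∑' j : ℕ, t ^ (j + 1 + 1) * D (j + 1 + 1) =
      c * t * (∑' j : ℕ, t ^ (j + 1) * D (j + 1)) - t ^ 2 * ∑' j : ℕ, t ^ j * D j := by
    rw [← tsum_mul_left, ← tsum_mul_left, ← (hs1.mul_left _).tsum_sub (hs.mul_left _)]
    refine tsum_congr fun j => ?_
    rw [show j + 1 + 1 = j + 2 by ring, hrec]
    ring
  rw [h0] at e0
  rw [zero_add, h1, e2] at e1
  generalize (∑' j : ℕ, t ^ j * D j) = X at *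
  generalize (∑' j : ℕ, t ^ (j + 1) * D (j + 1)) = Z at *
  linear_combination (1 - c * t) * e0 + e1

lemma gen (γ t : ℝ) (ht : |t| < 1) :
    (∑' j : ℕ, t ^ j * Dk j γ) * (1 - 2 * Real.cos (2 * γ) * t + t ^ 2) = 1 - t :=
  gen_aux (fun j => Dk j γ) (2 * Real.cos (2 * γ)) t (D_zero γ) (D_one γ)
    (fun j => D_rec j γ) (summ_D γ t ht)

lemma gen_bounds (γ t : ℝ) (ht0 : 0 ≤ t) (ht : t < 1) :
    0 ≤ ∑' j : ℕ, t ^ j * Dk j γ ∧ ∑' j : ℕ, t ^ j * Dk j γ ≤ 1 / (1 - t) := by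
  have h := gen γ t (by rwa [abs_of_nonneg ht0])
  have hc := Real.cos_le_one (2 * γ)
  have hQ : (1 - t) ^ 2 ≤ 1 - 2 * Real.cos (2 * γ) * t + t ^ 2 := by nlinarith
  have h1 : 0 < (1 - t) ^ 2 := by
    have : 0 < 1 - t := by linarith
    positivity
  have hQ0 : 0 < 1 - 2 * Real.cos (2 * γ) * t + t ^ 2 := by linarith
  have hX : ∑' j : ℕ, t ^ j * Dk j γ = (1 - t) / (1 - 2 * Real.cos (2 * γ) * t + t ^ 2) := by
    rw [eq_div_iff hQ0.ne']
    exact h
  rw [hX]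
  refine ⟨div_nonneg (by linarith) hQ0.le, ?_⟩
  rw [div_le_div_iff₀ hQ0 (by linarith)]
  nlinarith

/-- the function `R` -/
noncomputable def RR (γ r : ℝ) : ℝ := ∑' j : ℕ, qs r j * Dk j γ

lemma RR_deriv (γ r₁ r : ℝ) (hr0 : 0 < r₁) (hr1 : r₁ < 1) (hr : r ∈ Ioo (-r₁) r₁) :
    HasDerivAt (RR γ) (∑' j : ℕ, 2 * (r ^ 2) ^ j * Dk j γ) r := by
  have hsq : |r₁ ^ 2| < 1 := by
    rw [abs_of_nonneg (by positivity)]
    nlinarith
  refine hasDerivAt_tsum_of_isPreconnected (𝕜 := ℝ) (g := fun j r => qs r j * Dk j γ)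
    (g' := fun j r => 2 * (r ^ 2) ^ j * Dk j γ) (u := fun j : ℕ => 2 * (|r₁ ^ 2| ^ j * (2 * (j : ℝ) + 1)))
    (t := Ioo (-r₁) r₁) (y₀ := 0)
    ((summ_geo _ hsq).mul_left 2) isOpen_Ioo isPreconnected_Ioo ?_ ?_ ?_ ?_ hr
  · intro j y _
    unfold qs
    have h1 : HasDerivAt (fun y : ℝ => y ^ (2 * j + 1)) (((2 * j + 1 : ℕ) : ℝ) * y ^ (2 * j)) y := by
      simpa using hasDerivAt_pow (2 * j + 1) y
    have h2 := ((h1.const_mul 2).div_const (2 * (j : ℝ) + 1)).mul_const (Dk j γ)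
    refine h2.congr_deriv ?_
    have : (2 * (j : ℝ) + 1) ≠ 0 := by positivity
    push_cast
    rw [← pow_mul]
    field_simp
  · intro j y hy
    rw [Real.norm_eq_abs, abs_mul, abs_mul, abs_two, mul_assoc]
    have hy1 : |y ^ 2| ≤ |r₁ ^ 2| := by
      rw [abs_pow, abs_pow, abs_of_pos hr0]
      have : |y| ≤ r₁ := abs_le.2 ⟨hy.1.le, hy.2.le⟩
      gcongr
    rw [abs_pow]
    have := D_abs j γ
    gcongr
  · exact ⟨by linarith, hr0⟩
  · refine summable_of_ne_finset_zero (s := ∅) fun j _ => ?_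
    unfold qs
    simp

lemma RR_le (γ ρ : ℝ) (h0 : 0 < ρ) (h1 : ρ < 1) : RR γ ρ ≤ Real.log ((1 + ρ) / (1 - ρ)) := by
  obtain ⟨r₁, hρr, hr1⟩ := exists_between h1
  have hr0 : 0 < r₁ := h0.trans hρr
  have hd : ∀ r ∈ Icc (0 : ℝ) ρ, HasDerivAt (fun r => Real.log (1 + r) - Real.log (1 - r) - RR γ r)
      (1 / (1 + r) + 1 / (1 - r) - ∑' j : ℕ, 2 * (r ^ 2) ^ j * Dk j γ) r := by
    intro r hr
    have a1 : HasDerivAt (fun r : ℝ => Real.log (1 + r)) (1 / (1 + r)) r := by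
      have := ((hasDerivAt_id r).const_add 1).log (by simp; linarith [hr.1])
      simpa using this
    have a2 : HasDerivAt (fun r : ℝ => Real.log (1 - r)) (-1 / (1 - r)) r := by
      have := ((hasDerivAt_id r).const_sub 1).log (by simp; linarith [hr.2])
      simpa using this
    have a3 := RR_deriv γ r₁ r hr0 hr1 ⟨by linarith [hr.1], by linarith [hr.2]⟩
    refine ((a1.sub a2).sub a3).congr_deriv ?_
    ring
  have hnn : ∀ r ∈ Icc (0 : ℝ) ρ,
      0 ≤ 1 / (1 + r) + 1 / (1 - r) - ∑' j : ℕ, 2 * (r ^ 2) ^ j * Dk j γ := by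
    intro r hr
    have hr1' : r < 1 := lt_of_le_of_lt hr.2 h1
    have hsq : r ^ 2 < 1 := by nlinarith [hr.1]
    have b := (gen_bounds γ (r ^ 2) (by positivity) hsq).2
    have e : ∑' j : ℕ, 2 * (r ^ 2) ^ j * Dk j γ = 2 * ∑' j : ℕ, (r ^ 2) ^ j * Dk j γ := by
      rw [← tsum_mul_left]
      exact tsum_congr fun j => by ring
    rw [e]
    have e2 : 1 / (1 + r) + 1 / (1 - r) = 2 * (1 / (1 - r ^ 2)) := by
      have c1 : (1 + r) ≠ 0 := by linarith [hr.1]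
      have c2 : (1 - r) ≠ 0 := by linarith
      have c3 : (1 - r ^ 2) ≠ 0 := by linarith
      have c4 : 1 - r ^ 2 = (1 + r) * (1 - r) := by ring
      rw [c4]
      field_simp
      try ring
    rw [e2]
    linarith
  have hmono : MonotoneOn (fun r => Real.log (1 + r) - Real.log (1 - r) - RR γ r) (Icc 0 ρ) := by
    refine monotoneOn_of_deriv_nonneg (convex_Icc _ _)
      (fun r hr => (hd r hr).continuousAt.continuousWithinAt)
      (fun r hr => (hd r (interior_subset hr)).differentiableAt.differentiableWithinAt) ?_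
    intro r hr
    rw [(hd r (interior_subset hr)).deriv]
    exact hnn r (interior_subset hr)
  have h := hmono (left_mem_Icc.2 h0.le) (right_mem_Icc.2 h0.le) h0.le
  have hz : RR γ 0 = 0 := by
    unfold RR qs
    simp
  simp only [hz, add_zero, sub_zero, Real.log_one] at h
  rw [Real.log_div (by linarith) (by linarith)]
  linarith

theorem taskR : TaskR := by
  intro ρ h0 h1 γ
  have hsq : ρ ^ 2 < 1 := by nlinarith
  have hsqa : |ρ ^ 2| < 1 := by rwa [abs_of_nonneg (by positivity)]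
  have hs := summ_D γ (ρ ^ 2) hsqa
  obtain ⟨g1, g2⟩ := gen_bounds γ (ρ ^ 2) (by positivity) hsq
  set X := ∑' j : ℕ, (ρ ^ 2) ^ j * Dk j γ with hX
  have e1 : ∑' j : ℕ, (2 * (j : ℝ) + 1) * qs ρ j * Dk j γ = 2 * ρ * X := by
    rw [hX, ← tsum_mul_left]
    refine tsum_congr fun j => ?_
    unfold qs
    have : (2 * (j : ℝ) + 1) ≠ 0 := by positivity
    rw [← pow_mul]
    field_simp
    ring
  have e2 : ∑' j : ℕ, ms ρ j * Dk j γ = Real.log ((1 + ρ) / (1 - ρ)) * ρ * X + 1 := by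
    have c1 : ∀ j, ms ρ j * Dk j γ = Real.log ((1 + ρ) / (1 - ρ)) * ρ * ((ρ ^ 2) ^ j * Dk j γ) +
        (if j = 0 then (1 : ℝ) else 0) := by
      intro j
      unfold ms
      rw [← pow_mul]
      split_ifs with h
      · subst h
        rw [D_zero]
        ring
      · ring
    rw [tsum_congr c1, (hs.mul_left _).tsum_add (summable_of_ne_finset_zero (s := {0}) fun j hj => by
      rw [if_neg (by simpa using hj)]), tsum_mul_left, tsum_ite_eq]
  have e3 : ∑' j : ℕ, qs ρ j * Dk j γ = RR γ ρ := rfl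
  rw [e1, e2, e3]
  have h := RR_le γ ρ h0 h1
  have h2 : 0 ≤ ρ * X := by positivity
  nlinarith [mul_le_mul_of_nonneg_right h h2]

end Pool.Agent.H299R5.Bom3
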